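import Mathlib
import Pool.Agent.Helper41.FQ.Gens
import Pool.Agent.Helper41.FQ.M.OmFinal

/-!
The anticanonical divisor of the model `X` is ample: the eight sections `Z_l · σ` have the
affine loci `W i`, `e i = ζ_l⁶`.
-/

open CategoryTheory AlgebraicGeometry TopologicalSpace MvPolynomial

universe u

noncomputable section

namespace FQ

variable {k : Type u} [Field k] {κ : Idx → k} {L : Type u} [Field L] [Algebra k L]

section Basic

variable {X : Scheme.{u}}

/-- functions on `U` with the same germ up to a unit have the same basic open set -/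
theorem basicOpen_eq_of_unit61 {U : X.Opens} (f g u v : Γ(X, U))
    (huv : u * v = 1) (h : f = g * u) : X.basicOpen f = X.basicOpen g := by
  have hu : IsUnit u := IsUnit.of_mul_eq_one v huv
  rw [h, Scheme.basicOpen_mul, X.basicOpen_of_isUnit hu]
  exact inf_eq_left.2 (X.basicOpen_le g)

end Basic

variable {N : ℕ} {e : Fin (N + 1) → L}

/-- a chart for every word -/
theorem exists_chartIdx61 (x : GP κ L) (he : Set.range e = x.gens) (w : List (Fin 4)) :
    ∃ c : ChartIdx x e, c.w = w := by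
  have h1 : (x.lab w).gA ∈ Set.range e := by
    rw [he, ← x.gens_lab w]
    exact (x.lab w).gA_mem
  have h2 : (x.lab w).gM ∈ Set.range e := by
    rw [he, ← x.gens_lab w]
    exact (x.lab w).gM_mem
  obtain ⟨i, hi⟩ := h1
  obtain ⟨j, hj⟩ := h2
  exact ⟨⟨w, i, j, hi, hj⟩, rfl⟩

theorem evA_injective61 (M : Model (k := k) e) : Function.Injective M.evA :=
  M.evA.toRingHom.injective

/-- the chart maps to the function field -/
theorem exists_phi61 (x : GP κ L) (he : Set.range e = x.gens) (M : Model (k := k) e)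
    (hrange : ∀ (c : ChartIdx x e) (z : L), (∃ y, M.val (c.U M) y = z) ↔
      ∃ r, (x.lab c.w).chartPt.lift r = z) (w : List (Fin 4)) :
    ∃ φ : ChartRing (labκ κ w) →ₐ[k] M.X.functionField,
      ∀ r, M.evA (φ r) = (x.lab w).chartPt.lift r := by
  obtain ⟨c, rfl⟩ := exists_chartIdx61 x he w
  have hle : ∀ r, (x.lab c.w).chartPt.lift r ∈ M.evA.range := by
    intro r
    obtain ⟨y, hy⟩ := (hrange c _).2 ⟨r, rfl⟩
    exact ⟨M.X.germToFunctionField (c.U M) y, hy⟩
  let E := AlgEquiv.ofInjective M.evA (evA_injective61 M)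
  refine ⟨E.symm.toAlgHom.comp ((x.lab c.w).chartPt.lift.codRestrict M.evA.range hle), ?_⟩
  intro r
  have : (E (E.symm (((x.lab c.w).chartPt.lift.codRestrict M.evA.range hle) r)) : L) =
      (x.lab c.w).chartPt.lift r := by
    rw [AlgEquiv.apply_symm_apply]
    rfl
  exact this

/-- elements of the function field are quotients of chart functions -/
theorem exists_frac61 (x : GP κ L) (he : Set.range e = x.gens) (M : Model (k := k) e)
    (haff : ∀ c : ChartIdx x e, IsAffineOpen (c.U M))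
    (hrange : ∀ (c : ChartIdx x e) (z : L), (∃ y, M.val (c.U M) y = z) ↔
      ∃ r, (x.lab c.w).chartPt.lift r = z) (w : List (Fin 4))
    (φ : ChartRing (labκ κ w) →ₐ[k] M.X.functionField)
    (hφ : ∀ r, M.evA (φ r) = (x.lab w).chartPt.lift r) (z : M.X.functionField) :
    ∃ r s, φ s ≠ 0 ∧ z * φ s = φ r := by
  obtain ⟨c, rfl⟩ := exists_chartIdx61 x he w
  have hgerm : ∀ y : Γ(M.X, c.U M), ∃ r, φ r = M.X.germToFunctionField (c.U M) y := by
    intro y
    obtain ⟨r, hr⟩ := (hrange c _).1 ⟨y, rfl⟩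
    refine ⟨r, evA_injective61 M ?_⟩
    rw [hφ, hr]
    rfl
  have := functionField_isFractionRing_of_isAffineOpen M.X (c.U M) (haff c)
  obtain ⟨a, b, hb, hab⟩ := IsFractionRing.div_surjective (A := Γ(M.X, c.U M)) z
  obtain ⟨r, hr⟩ := hgerm a
  obtain ⟨s, hs⟩ := hgerm b
  have hb0 : M.X.germToFunctionField (c.U M) b ≠ 0 := by
    intro h0
    have : b = 0 := M.X.germToFunctionField_injective (c.U M) (by rw [h0, map_zero])
    exact nonZeroDivisors.ne_zero hb this
  refine ⟨r, s, by rwa [hs], ?_⟩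
  rw [hs, hr]
  have h1 : z = M.X.germToFunctionField (c.U M) a / M.X.germToFunctionField (c.U M) b :=
    hab.symm
  rw [h1]
  exact div_mul_cancel₀ _ hb0

theorem lmb_identity61 (x : GP κ L) (l : Idx) (a : L) (ha : a ≠ 0) (hla : x.gA = a) :
    x.cZ l ^ 3 = (x.ζ l ^ 6 / a) * (algebraMap k L (κ (0, true)) ^ 6 * (a / x.gM) ^ 3) := by
  subst hla
  have h1 := x.mam_ne
  have h2 := x.ζ_ne (0, true)
  have h3 : algebraMap k L (κ (0, true)) ≠ 0 := by
    intro h
    exact x.good.1 (0, true) ((map_eq_zero (algebraMap k L)).1 h)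
  have h4 : x.toGenPt.lmb = x.toGenPt.m (0, false) (1, false) /
      (algebraMap k L (κ (0, true)) * x.ζ (0, true) ^ 2) := rfl
  rw [GP.cZ, h4, GP.gM, GP.gA]
  field_simp

/-- the anticanonical divisor is ample -/
theorem ample_of_charts [CharP k 2] (x : GP κ L) (he : Set.range e = x.gens)
    (M : Model (k := k) e)
    (haff : ∀ c : ChartIdx x e, IsAffineOpen (c.U M))
    (hrange : ∀ (c : ChartIdx x e) (z : L), (∃ y, M.val (c.U M) y = z) ↔
      ∃ r, (x.lab c.w).chartPt.lift r = z)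
    (hcov : ∀ p : M.X, ∃ c : ChartIdx x e, p ∈ c.U M) :
    AnticanonicalIsAmple M.s 5 := by
  choose φ hφ using fun w => exists_phi61 x he M hrange w
  have hfrac : ∀ w (z : M.X.functionField), ∃ r s, φ w s ≠ 0 ∧ z * φ w s = φ w r :=
    fun w z => exists_frac61 x he M haff hrange w (φ w) (hφ w) z
  obtain ⟨σ, hσ⟩ := exists_multiDer x M.evA φ hφ hfrac
  -- germs of chart functions
  have hgerm : ∀ (c : ChartIdx x e) (y : Γ(M.X, c.U M)), ∃ r,
      φ c.w r = M.X.germToFunctionField (c.U M) y := by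
    intro c y
    obtain ⟨r, hr⟩ := (hrange c _).1 ⟨y, rfl⟩
    refine ⟨r, evA_injective61 M ?_⟩
    rw [hφ, hr]
    rfl
  have hsec : ∀ (c : ChartIdx x e) (r : ChartRing (labκ κ c.w)), ∃ y : Γ(M.X, c.U M),
      M.X.germToFunctionField (c.U M) y = φ c.w r := by
    intro c r
    obtain ⟨y, hy⟩ := (hrange c _).2 ⟨r, rfl⟩
    refine ⟨y, evA_injective61 M ?_⟩
    rw [hφ]
    exact hy
  let D : Idx → MultiDer (scalK M.s) 5 := fun l => σ l
  have hval : ∀ (c : ChartIdx x e) (l : Idx), ∃ z : Γ(M.X, c.U M), ∃ l' : Idx,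
      FQ.lab c.w l' = l ∧
      M.X.germToFunctionField (c.U M) z = φ c.w ((ChartRing.pt (labκ κ c.w)).Z l') := by
    intro c l
    obtain ⟨l', hl'⟩ := lab_surjective c.w l
    obtain ⟨z, hz⟩ := hsec c ((ChartRing.pt (labκ κ c.w)).Z l')
    exact ⟨z, l', hl', hz⟩
  have hcZ : ∀ (w : List (Fin 4)) (l' : Idx),
      M.evA (φ w ((ChartRing.pt (labκ κ w)).Z l')) = (x.lab w).cZ l' := by
    intro w l'
    rw [hφ]
    show (x.lab w).chartPt.lift (ChartRing.mk _ (X (Sum.inl l'))) = _
    rw [ChartPt.lift_mk, aeval_X]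
    rfl
  -- regularity
  have hreg : ∀ (l : Idx) (c : ChartIdx x e), (D l).RegularOn (c.U M) := by
    intro l c g
    obtain ⟨l', hl'⟩ := lab_surjective c.w l
    choose r hr using fun j => hgerm c (g j)
    obtain ⟨r', hr'⟩ := (hσ c.w l').1 r
    obtain ⟨y, hy⟩ := hsec c ((ChartRing.pt (labκ κ c.w)).Z l' * r')
    refine ⟨y, ?_⟩
    rw [hy, map_mul, ← hr', hl']
    simp only [hr]
    rfl
  have hD : ∀ l, ∀ q : M.X, ∃ (W : M.X.Opens) (_ : q ∈ W) (_ : Nonempty W),
      IsAffineOpen W ∧ (D l).RegularOn W := by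
    intro l q
    obtain ⟨c, hc⟩ := hcov q
    exact ⟨c.U M, hc, inferInstance, haff c, hreg l c⟩
  -- the locus on a chart
  have hlocus : ∀ (l : Idx) (c : ChartIdx x e) (z : Γ(M.X, c.U M)) (l' : Idx)
      (hl' : FQ.lab c.w l' = l)
      (hz : M.X.germToFunctionField (c.U M) z = φ c.w ((ChartRing.pt (labκ κ c.w)).Z l'))
      (q : M.X) (hq : q ∈ c.U M),
      q ∈ ((D l).toSection (hD l)).locus ↔ q ∈ M.X.basicOpen z := by
    intro l c z l' hl' hz q hq
    have hz0 : φ c.w ((ChartRing.pt (labκ κ c.w)).Z l') ≠ 0 := by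
      intro h0
      have h1 := hcZ c.w l'
      rw [h0, map_zero] at h1
      exact div_ne_zero (pow_ne_zero 2 ((x.lab c.w).ζ_ne l')) (pow_ne_zero 2 (x.lab c.w).lmb_ne)
        h1.symm
    let D' : MultiDer (scalK M.s) 5 :=
      (D l).smul (φ c.w ((ChartRing.pt (labκ κ c.w)).Z l'))⁻¹
    have hD' : ∀ g, D'.toFun g = (φ c.w ((ChartRing.pt (labκ κ c.w)).Z l'))⁻¹ *
        (D l).toFun g := fun g => rfl
    refine MultiDer.locus_iff (D l) D' (hD l) (c.U M) (haff c) z ?_ ?_ ?_ q hq
    · intro g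
      rw [hD', hz, mul_inv_cancel_left₀ hz0]
    · intro g
      choose r hr using fun j => hgerm c (g j)
      obtain ⟨r', hr'⟩ := (hσ c.w l').1 r
      obtain ⟨y, hy⟩ := hsec c r'
      refine ⟨y, ?_⟩
      rw [hD', hy, eq_inv_mul_iff_mul_eq₀ hz0, ← hr', hl']
      simp only [hr]
      rfl
    · obtain ⟨g, r, hg⟩ := (hσ c.w l').2
      obtain ⟨r', hr'⟩ := (hσ c.w l').1 g
      choose y hy using fun j => hsec c (g j)
      obtain ⟨a, ha⟩ := hsec c r
      obtain ⟨b, hb⟩ := hsec c r'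
      have hab : b * a = 1 := by
        apply M.X.germToFunctionField_injective (c.U M)
        rw [map_mul, ha, hb, map_one]
        rw [hr', mul_assoc] at hg
        exact mul_left_cancel₀ hz0 (by rw [mul_one]; exact hg.symm)
      refine ⟨y, ⟨b, a, hab, by rw [mul_comm]; exact hab⟩, ?_⟩
      rw [hD', eq_inv_mul_iff_mul_eq₀ hz0]
      show _ * M.X.germToFunctionField (c.U M) b = _
      rw [hb, ← hr', hl']
      simp only [hy]
      rfl
  intro p
  obtain ⟨c, hc⟩ := hcov p
  set l : Idx := FQ.lab c.w (0, true) with hl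
  have hei : e c.i = x.ζ l ^ 6 := by
    rw [c.hi, GP.gA, x.lab_ζ]
  refine ⟨1, one_pos, (D l).toSection (hD l), ?_⟩
  have hW : ((D l).toSection (hD l)).locus = M.W c.i := by
    ext q
    obtain ⟨c', hc'⟩ := hcov q
    obtain ⟨z, l', hl', hz⟩ := hval c' l
    rw [SetLike.mem_coe, SetLike.mem_coe, hlocus l c' z l' hl' hz q hc']
    -- the function `e c.i / e c'.i` on `W c'.i`
    have hn0 : ∀ i, e i ≠ 0 := by
      intro i
      have : e i ∈ x.gens := by rw [← he]; exact ⟨i, rfl⟩
      exact this.1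
    obtain ⟨y, hy⟩ := (M.range c'.i (e c.i / e c'.i)).2
      (Algebra.subset_adjoin ⟨c.i, rfl⟩)
    have hyb := M.basic c'.i c.i y hy
    -- units
    obtain ⟨u, hu⟩ := (M.range c'.j (e c'.i / e c'.j)).2 (Algebra.subset_adjoin ⟨c'.i, rfl⟩)
    obtain ⟨v, hv⟩ := (M.range c'.i (e c'.j / e c'.i)).2 (Algebra.subset_adjoin ⟨c'.j, rfl⟩)
    let y' : Γ(M.X, c'.U M) := res inf_le_left y
    let u' : Γ(M.X, c'.U M) := res inf_le_right u
    let v' : Γ(M.X, c'.U M) := res inf_le_left v
    have hy' : M.val (c'.U M) y' = e c.i / e c'.i := by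
      rw [← hy]
      exact congrArg M.ev (germ_res_ff (M.W c'.i) (c'.U M) (homOfLE inf_le_left) y)
    have hu' : M.val (c'.U M) u' = e c'.i / e c'.j := by
      rw [← hu]
      exact congrArg M.ev (germ_res_ff (M.W c'.j) (c'.U M) (homOfLE inf_le_right) u)
    have hv' : M.val (c'.U M) v' = e c'.j / e c'.i := by
      rw [← hv]
      exact congrArg M.ev (germ_res_ff (M.W c'.i) (c'.U M) (homOfLE inf_le_left) v)
    have hinj : Function.Injective (M.val (c'.U M)) := by
      intro a b hab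
      exact M.X.germToFunctionField_injective (c'.U M) (M.ev.injective hab)
    have hk : labκ κ c'.w (0, true) ≠ 0 := (x.lab c'.w).good.1 _
    let t : Γ(M.X, c'.U M) := scal M.s (c'.U M) (labκ κ c'.w (0, true))
    let t' : Γ(M.X, c'.U M) := scal M.s (c'.U M) (labκ κ c'.w (0, true))⁻¹
    have ht : M.val (c'.U M) t = algebraMap k L (labκ κ c'.w (0, true)) := by
      rw [← M.ev_scal]
      exact congrArg M.ev (scalK_eq M.s (c'.U M) _)
    have hzt : z ^ 3 = y' * (t ^ 6 * u' ^ 3) := by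
      apply hinj
      have hzv : M.val (c'.U M) z = (x.lab c'.w).cZ l' := by
        rw [← hcZ]
        exact congrArg M.ev hz
      rw [map_pow, map_mul, map_mul, map_pow, map_pow, hzv, hy', hu', ht, hei, c'.hj]
      have hζ : (x.lab c'.w).ζ l' = x.ζ l := by rw [x.lab_ζ, hl']
      rw [← hζ]
      exact lmb_identity61 (x.lab c'.w) l' (e c'.i) (hn0 _) c'.hi.symm
    have hunit : (t ^ 6 * u' ^ 3) * (t' ^ 6 * v' ^ 3) = 1 := by
      have h1 : t * t' = 1 := by
        show scal M.s (c'.U M) _ * scal M.s (c'.U M) _ = 1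
        rw [← map_mul, mul_inv_cancel₀ hk, map_one]
      have h2 : u' * v' = 1 := by
        apply hinj
        rw [map_mul, hu', hv', map_one]
        have := hn0 c'.i
        have := hn0 c'.j
        field_simp
      calc (t ^ 6 * u' ^ 3) * (t' ^ 6 * v' ^ 3) = (t * t') ^ 6 * (u' * v') ^ 3 := by ring
        _ = 1 := by rw [h1, h2]; simp
    have hb : M.X.basicOpen z = M.X.basicOpen y' := by
      rw [← M.X.basicOpen_pow z (n := 3) (by norm_num)]
      exact basicOpen_eq_of_unit61 _ _ _ _ hunit hzt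
    rw [hb]
    have hres : M.X.basicOpen y' = c'.U M ⊓ M.X.basicOpen y := by
      exact M.X.basicOpen_res y (homOfLE inf_le_left).op
    rw [hres, hyb]
    constructor
    · intro h
      exact h.2.2
    · intro h
      exact ⟨hc', hc'.1, h⟩
  rw [hW]
  exact ⟨hc.1, M.affine c.i⟩

end FQ
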