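import Mathlib

/-!
Descent of formal smoothness from a quadratic extension `A = B + B t`, `t ^ 2 = T`,
to `B`.
-/

namespace FQDescent

universe u v w

open Algebra

/-- the map of quadratic algebras induced by a ring homomorphism -/
def qmap {k : Type u} {B : Type v} {C : Type w} [CommRing k] [CommRing B] [CommRing C]
    [Algebra k B] [Algebra k C] (f : B →ₐ[k] C) (T : B) (T' : C) (h : f T = T') :
    QuadraticAlgebra B T 0 →ₐ[k] QuadraticAlgebra C T' 0 where
  toFun x := ⟨f x.re, f x.im⟩
  map_one' := by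
    ext
    · show f 1 = 1
      simp
    · show f 0 = 0
      simp
  map_mul' x y := by
    ext
    · simp [← h]
    · simp
  map_zero' := by
    ext
    · show f 0 = 0
      simp
    · show f 0 = 0
      simp
  map_add' x y := by
    ext <;> simp
  commutes' r := by
    ext
    · show f (algebraMap k B r) = algebraMap k C r
      simp
    · show f 0 = 0
      simp

theorem formallySmooth_of_quadratic (k : Type u) (B : Type v) [CommRing k] [CommRing B]
    [Algebra k B] (T : B) [FormallySmooth k (QuadraticAlgebra B T 0)] :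
    FormallySmooth k B := by
  rw [FormallySmooth.iff_comp_surjective]
  intro C _ _ I hI f
  obtain ⟨T', hT'⟩ := Ideal.Quotient.mk_surjective (f T)
  let π : QuadraticAlgebra C T' 0 →ₐ[k] QuadraticAlgebra (C ⧸ I) (f T) 0 :=
    qmap (Ideal.Quotient.mkₐ k I) T' (f T) hT'
  let F : QuadraticAlgebra B T 0 →ₐ[k] QuadraticAlgebra (C ⧸ I) (f T) 0 :=
    qmap f T (f T) rfl
  have hII : ∀ x ∈ I, ∀ y ∈ I, x * y = 0 := by
    intro x hx y hy
    have : x * y ∈ I ^ 2 := by
      rw [pow_two]
      exact Ideal.mul_mem_mul hx hy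
    rw [hI] at this
    simpa using this
  have hπ : Function.Surjective π := by
    intro y
    obtain ⟨a, ha⟩ := Ideal.Quotient.mk_surjective y.re
    obtain ⟨b, hb⟩ := Ideal.Quotient.mk_surjective y.im
    refine ⟨⟨a, b⟩, ?_⟩
    ext
    · exact ha
    · exact hb
  have hker : ∀ x : QuadraticAlgebra C T' 0, π x = 0 → x.re ∈ I ∧ x.im ∈ I := by
    intro x hx
    constructor
    · have := congrArg QuadraticAlgebra.re hx
      exact Ideal.Quotient.eq_zero_iff_mem.mp this
    · have := congrArg QuadraticAlgebra.im hx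
      exact Ideal.Quotient.eq_zero_iff_mem.mp this
  have hnil : IsNilpotent (RingHom.ker (π : QuadraticAlgebra C T' 0 →+*
      QuadraticAlgebra (C ⧸ I) (f T) 0)) := by
    refine ⟨2, ?_⟩
    rw [pow_two, Ideal.zero_eq_bot, eq_bot_iff, Ideal.mul_le]
    intro x hx y hy
    obtain ⟨h1, h2⟩ := hker x hx
    obtain ⟨h3, h4⟩ := hker y hy
    rw [Ideal.mem_bot]
    ext
    · simp [hII _ h1 _ h3, mul_assoc, hII _ h2 _ h4]
    · simp [hII _ h1 _ h4, hII _ h2 _ h3]
  let g := FormallySmooth.liftOfSurjective F π hπ hnil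
  have hg : ∀ x, π (g x) = F x := FormallySmooth.liftOfSurjective_apply F π hπ hnil
  have him : ∀ b : B, (g ⟨b, 0⟩).im ∈ I := by
    intro b
    have := congrArg QuadraticAlgebra.im (hg ⟨b, 0⟩)
    refine Ideal.Quotient.eq_zero_iff_mem.mp (this.trans ?_)
    show f 0 = 0
    simp
  have hre : ∀ b : B, Ideal.Quotient.mk I (g ⟨b, 0⟩).re = f b := by
    intro b
    exact congrArg QuadraticAlgebra.re (hg ⟨b, 0⟩)
  let s : B →ₐ[k] C :=
    { toFun := fun b => (g ⟨b, 0⟩).re
      map_one' := by
        have : (⟨1, 0⟩ : QuadraticAlgebra B T 0) = 1 := by ext <;> rfl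
        rw [this, map_one]
        rfl
      map_mul' := by
        intro a b
        have : (⟨a * b, 0⟩ : QuadraticAlgebra B T 0) = ⟨a, 0⟩ * ⟨b, 0⟩ := by
          ext <;> simp
        rw [this, map_mul]
        simp [mul_assoc, hII _ (him a) _ (him b)]
      map_zero' := by
        have : (⟨0, 0⟩ : QuadraticAlgebra B T 0) = 0 := by ext <;> rfl
        rw [this, map_zero]
        rfl
      map_add' := by
        intro a b
        have : (⟨a + b, 0⟩ : QuadraticAlgebra B T 0) = ⟨a, 0⟩ + ⟨b, 0⟩ := by
          ext <;> simp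
        rw [this, map_add]
        rfl
      commutes' := by
        intro r
        have : (⟨algebraMap k B r, 0⟩ : QuadraticAlgebra B T 0) = algebraMap k _ r := by
          ext <;> rfl
        rw [this, AlgHom.commutes]
        rfl }
  refine ⟨s, ?_⟩
  ext b
  exact hre b

end FQDescent
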