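import Mathlib
import Pool.Agent.Helper61.FQ.Descent

/-!
The local structure of the quotient by a square-zero derivation `D` with `D t = 1` in
characteristic two: `A = B + B t`, `B = ker D`, `t ^ 2 = T`.
-/

namespace FQDescent

universe u v w

open Algebra

section Retract

/-- a retract of a formally smooth algebra is formally smooth -/
theorem formallySmooth_of_retract {k : Type u} {R : Type v} {P : Type w} [CommRing k]
    [CommRing R] [CommRing P] [Algebra k R] [Algebra k P] (i : R →ₐ[k] P) (r : P →ₐ[k] R)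
    (h : ∀ x, r (i x) = x) [FormallySmooth k P] : FormallySmooth k R := by
  rw [FormallySmooth.iff_comp_surjective]
  intro C _ _ I hI f
  obtain ⟨g, hg⟩ := FormallySmooth.exists_lift I ⟨2, hI⟩ (f.comp r)
  refine ⟨g.comp i, ?_⟩
  ext x
  have := congrArg (fun F : P →ₐ[k] C ⧸ I => F (i x)) hg
  simp only [AlgHom.comp_apply, h] at this
  exact this

end Retract

section Chart

variable {k : Type u} {B : Type v} {A : Type w} [CommRing k] [CommRing B] [CommRing A]
  [Algebra k B] [Algebra k A]

/-- the map `b + c ω ↦ ι b + ι c * t` -/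
def quadHom (ι : B →ₐ[k] A) (t : A) (T : B) (hT : ι T = t ^ 2) :
    QuadraticAlgebra B T 0 →ₐ[k] A where
  toFun x := ι x.re + ι x.im * t
  map_one' := by
    show ι 1 + ι 0 * t = 1
    simp
  map_mul' x y := by
    simp only [QuadraticAlgebra.re_mul, QuadraticAlgebra.im_mul, map_add, map_mul, map_zero, hT]
    ring
  map_zero' := by
    show ι 0 + ι 0 * t = 0
    simp
  map_add' x y := by
    simp only [QuadraticAlgebra.re_add, QuadraticAlgebra.im_add, map_add]
    ring
  commutes' r := by
    show ι (algebraMap k B r) + ι 0 * t = algebraMap k A r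
    simp

theorem quadHom_bijective (ι : B →ₐ[k] A) (hι : Function.Injective ι) (D : Derivation k A A)
    (hD : ∀ a, D (D a) = 0) (hker : ∀ a, D a = 0 ↔ a ∈ Set.range ι) (t : A) (ht : D t = 1)
    (T : B) (hT : ι T = t ^ 2) :
    Function.Bijective (quadHom ι t T hT) := by
  have h0 : ∀ b : B, D (ι b) = 0 := fun b => (hker _).2 ⟨b, rfl⟩
  constructor
  · rw [injective_iff_map_eq_zero]
    intro x hx
    have hx' : ι x.re + ι x.im * t = 0 := hx
    have h1 : ι x.im = 0 := by
      have := congrArg D hx'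
      simpa [h0, ht] using this
    have h2 : ι x.re = 0 := by simpa [h1] using hx'
    ext
    · exact hι (by rw [h2, QuadraticAlgebra.re_zero, map_zero])
    · exact hι (by rw [h1, QuadraticAlgebra.im_zero, map_zero])
  · intro a
    obtain ⟨c, hc⟩ := (hker (D a)).1 (hD a)
    have : D (a - t * D a) = 0 := by
      simp [ht, hD]
    obtain ⟨b, hb⟩ := (hker _).1 this
    refine ⟨⟨b, c⟩, ?_⟩
    show ι b + ι c * t = a
    rw [hb, hc]
    ring

/-- `A` is the quadratic algebra over `B` -/
noncomputable def quadEquiv (ι : B →ₐ[k] A) (hι : Function.Injective ι) (D : Derivation k A A)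
    (hD : ∀ a, D (D a) = 0) (hker : ∀ a, D a = 0 ↔ a ∈ Set.range ι) (t : A) (ht : D t = 1)
    (T : B) (hT : ι T = t ^ 2) :
    QuadraticAlgebra B T 0 ≃ₐ[k] A :=
  AlgEquiv.ofBijective (quadHom ι t T hT) (quadHom_bijective ι hι D hD hker t ht T hT)

theorem formallySmooth_ker (ι : B →ₐ[k] A) (hι : Function.Injective ι) (D : Derivation k A A)
    (hD : ∀ a, D (D a) = 0) (hker : ∀ a, D a = 0 ↔ a ∈ Set.range ι) (t : A) (ht : D t = 1)
    (T : B) (hT : ι T = t ^ 2) [FormallySmooth k A] : FormallySmooth k B := by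
  have : FormallySmooth k (QuadraticAlgebra B T 0) :=
    FormallySmooth.of_equiv (quadEquiv ι hι D hD hker t ht T hT).symm
  exact formallySmooth_of_quadratic k B T

/-- in characteristic two, formal smoothness of `B[t]/(t²-T)` gives a derivation of `B`
with `T ↦ 1` -/
theorem exists_derivation_quadratic (T : B) (h2 : (2 : B) = 0)
    [FormallySmooth k (QuadraticAlgebra B T 0)] :
    ∃ φ : Derivation k B B, φ T = 1 := by
  let E := DualNumber B
  let T' : DualNumber B := TrivSqZeroExt.inl T + DualNumber.eps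
  let q : DualNumber B →ₐ[k] B := TrivSqZeroExt.fstHom k B B
  have hq : q T' = T := by
    simp [q, T']
  let π : QuadraticAlgebra (DualNumber B) T' 0 →ₐ[k] QuadraticAlgebra B T 0 := qmap q T' T hq
  have hπ : Function.Surjective π := by
    intro y
    refine ⟨⟨TrivSqZeroExt.inl y.re, TrivSqZeroExt.inl y.im⟩, ?_⟩
    ext
    · show q _ = _
      simp [q]
    · show q _ = _
      simp [q]
  have hker : ∀ x : QuadraticAlgebra (DualNumber B) T' 0, π x = 0 →
      x.re.fst = 0 ∧ x.im.fst = 0 := by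
    intro x hx
    constructor
    · exact congrArg QuadraticAlgebra.re hx
    · exact congrArg QuadraticAlgebra.im hx
  have hmul : ∀ x y : DualNumber B, x.fst = 0 → y.fst = 0 → x * y = 0 := by
    intro x y hx hy
    ext <;> simp [hx, hy]
  have hnil : IsNilpotent (RingHom.ker (π : QuadraticAlgebra (DualNumber B) T' 0 →+*
      QuadraticAlgebra B T 0)) := by
    refine ⟨2, ?_⟩
    rw [pow_two, Ideal.zero_eq_bot, eq_bot_iff, Ideal.mul_le]
    intro x hx y hy
    obtain ⟨h1, h2⟩ := hker x hx
    obtain ⟨h3, h4⟩ := hker y hy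
    rw [Ideal.mem_bot]
    ext1
    · rw [QuadraticAlgebra.re_mul, hmul _ _ h1 h3, mul_assoc, hmul _ _ h2 h4]
      simp
    · rw [QuadraticAlgebra.im_mul, hmul _ _ h1 h4, hmul _ _ h2 h3]
      simp
  let g := FormallySmooth.liftOfSurjective (AlgHom.id k (QuadraticAlgebra B T 0)) π hπ hnil
  have hg : ∀ x, π (g x) = x := FormallySmooth.liftOfSurjective_apply _ π hπ hnil
  have hre : ∀ x, (g x).re.fst = x.re := fun x => congrArg QuadraticAlgebra.re (hg x)
  have him : ∀ x, (g x).im.fst = x.im := fun x => congrArg QuadraticAlgebra.im (hg x)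
  have hC : ∀ a b : B, (⟨a * b, 0⟩ : QuadraticAlgebra B T 0) = ⟨a, 0⟩ * ⟨b, 0⟩ := by
    intro a b
    ext <;> simp
  let φ : Derivation k B B :=
    { toFun := fun b => (g ⟨b, 0⟩).re.snd
      map_add' := by
        intro a b
        have : (⟨a + b, 0⟩ : QuadraticAlgebra B T 0) = ⟨a, 0⟩ + ⟨b, 0⟩ := by
          ext <;> simp
        rw [this, map_add]
        rfl
      map_smul' := by
        intro r b
        have : (⟨r • b, 0⟩ : QuadraticAlgebra B T 0) = r • ⟨b, 0⟩ := by
          ext <;> simp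
        rw [this, map_smul]
        rfl
      map_one_eq_zero' := by
        show (g ⟨1, 0⟩).re.snd = 0
        have : (⟨1, 0⟩ : QuadraticAlgebra B T 0) = 1 := by ext <;> rfl
        rw [this, map_one]
        rfl
      leibniz' := by
        intro a b
        show (g ⟨a * b, 0⟩).re.snd = a • (g ⟨b, 0⟩).re.snd + b • (g ⟨a, 0⟩).re.snd
        rw [hC, map_mul, QuadraticAlgebra.re_mul, mul_assoc T',
          hmul _ _ (him ⟨a, 0⟩) (him ⟨b, 0⟩), mul_zero, add_zero, TrivSqZeroExt.snd_mul,
          hre, hre]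
        simp [mul_comm] }
  refine ⟨φ, ?_⟩
  -- the square of the image of `t`
  have h2' : ∀ x : DualNumber B, x + x = 0 := by
    intro x
    ext
    · rw [TrivSqZeroExt.fst_add, ← two_mul, h2, zero_mul, TrivSqZeroExt.fst_zero]
    · rw [TrivSqZeroExt.snd_add, ← two_mul, h2, zero_mul, TrivSqZeroExt.snd_zero]
  have ht : (⟨T, 0⟩ : QuadraticAlgebra B T 0) = ⟨0, 1⟩ * ⟨0, 1⟩ := by
    ext <;> simp
  show (g ⟨T, 0⟩).re.snd = 1
  rw [ht, map_mul, QuadraticAlgebra.re_mul]
  set y := g ⟨0, 1⟩ with hy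
  have hy1 : y.re.fst = 0 := hre ⟨0, 1⟩
  have hy2 : y.im.fst = 1 := him ⟨0, 1⟩
  rw [hmul _ _ hy1 hy1, zero_add]
  have h2s : y.im.snd + y.im.snd = 0 := by rw [← two_mul, h2, zero_mul]
  simp only [TrivSqZeroExt.snd_mul, TrivSqZeroExt.fst_mul, hy2, T', TrivSqZeroExt.fst_add,
    TrivSqZeroExt.snd_add, TrivSqZeroExt.fst_inl, TrivSqZeroExt.snd_inl, DualNumber.fst_eps,
    DualNumber.snd_eps]
  simp only [mul_one, add_zero, zero_add, one_smul, smul_eq_mul, MulOpposite.op_one]
  linear_combination T * h2s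

theorem exists_derivation (ι : B →ₐ[k] A) (hι : Function.Injective ι) (D : Derivation k A A)
    (hD : ∀ a, D (D a) = 0) (hker : ∀ a, D a = 0 ↔ a ∈ Set.range ι) (t : A) (ht : D t = 1)
    (T : B) (hT : ι T = t ^ 2) (h2 : (2 : B) = 0) [FormallySmooth k A] :
    ∃ φ : Derivation k B B, φ T = 1 := by
  have : FormallySmooth k (QuadraticAlgebra B T 0) :=
    FormallySmooth.of_equiv (quadEquiv ι hι D hD hker t ht T hT).symm
  exact exists_derivation_quadratic T h2

/-- `d(x²) = (D x)² dT` -/
theorem derivation_sq {M : Type*} [AddCommGroup M] [Module B M] [Module k M]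
    (ι : B →ₐ[k] A) (hι : Function.Injective ι) (D : Derivation k A A)
    (hD : ∀ a, D (D a) = 0) (hker : ∀ a, D a = 0 ↔ a ∈ Set.range ι) (t : A) (ht : D t = 1)
    (T : B) (hT : ι T = t ^ 2) (h2 : (2 : B) = 0) (δ : Derivation k B M)
    (x : A) (y c : B) (hy : ι y = x ^ 2) (hc : ι c = D x) :
    δ y = c ^ 2 • δ T := by
  obtain ⟨z, hz⟩ := (quadHom_bijective ι hι D hD hker t ht T hT).2 x
  have hz' : ι z.re + ι z.im * t = x := hz
  have h0 : ∀ b : B, D (ι b) = 0 := fun b => (hker _).2 ⟨b, rfl⟩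
  have hc' : c = z.im := by
    apply hι
    rw [hc, ← hz']
    simp [h0, ht]
  have hyy : y = z.re ^ 2 + z.im ^ 2 * T := by
    apply hι
    rw [hy, ← hz', map_add, map_mul, map_pow, map_pow, hT]
    have h2A : (2 : A) = 0 := by
      have := congrArg ι h2
      rwa [map_ofNat, map_zero] at this
    linear_combination (ι z.re * ι z.im * t) * h2A
  have hsq : ∀ b : B, δ (b ^ 2) = 0 := by
    intro b
    rw [Derivation.leibniz_pow]
    simp only [Nat.add_one_sub_one, pow_one]
    rw [← Nat.cast_smul_eq_nsmul B 2, Nat.cast_ofNat, h2, zero_smul]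
  rw [hyy, hc', map_add, Derivation.leibniz, hsq, hsq]
  simp

end Chart

end FQDescent
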