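import Mathlib
import Pool.Agent.Helper41.FQ.Def

/-!
On an integral scheme a rational function which is regular at every point of an open set `U`
is (the germ of) a section over `U`.
-/

open CategoryTheory AlgebraicGeometry TopologicalSpace Opposite

universe u

noncomputable section

namespace FQ

variable {X : Scheme.{u}}

theorem germToFunctionField_res61 [IsIntegral X] {U V : X.Opens} [Nonempty U] [Nonempty V]
    (h : V ≤ U) (g : Γ(X, U)) :
    X.germToFunctionField V (res h g) = X.germToFunctionField U g := by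
  have hη : genericPoint X ∈ V :=
    ((genericPoint_spec X).mem_open_set_iff V.isOpen).mpr (by simpa using ‹Nonempty V›)
  exact X.presheaf.germ_res_apply (homOfLE h) (genericPoint X) hη g

theorem exists_section_of_stalks61 [IsIntegral X] (U : X.Opens) [Nonempty U]
    (a : X.functionField)
    (h : ∀ x ∈ U, ∃ c : X.presheaf.stalk x, algebraMap _ X.functionField c = a) :
    ∃ g : Γ(X, U), X.germToFunctionField U g = a := by
  have key : ∀ x : U, ∃ (V : X.Opens) (hx : x.1 ∈ V) (hVU : V ≤ U) (g : Γ(X, V)),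
      ∀ hη : genericPoint X ∈ V, X.presheaf.germ V (genericPoint X) hη g = a := by
    rintro ⟨x, hxU⟩
    obtain ⟨c, hc⟩ := h x hxU
    obtain ⟨W, hxW, g, hg⟩ := X.presheaf.exists_germ_eq c
    refine ⟨W ⊓ U, ⟨hxW, hxU⟩, inf_le_right, X.presheaf.map (homOfLE inf_le_left).op g, ?_⟩
    intro hη
    have hne : Nonempty W := ⟨⟨x, hxW⟩⟩
    have h1 := Scheme.algebraMap_germ_eq_germToFunctionField X hxW g
    rw [hg, hc] at h1
    rw [h1]
    exact X.presheaf.germ_res_apply (homOfLE inf_le_left) (genericPoint X) hη g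
  choose V hxV hVU g hg using key
  have hηV : ∀ x : U, genericPoint X ∈ V x := fun x =>
    ((genericPoint_spec X).mem_open_set_iff (V x).isOpen).mpr ⟨x.1, trivial, hxV x⟩
  have hcompat : TopCat.Presheaf.IsCompatible X.sheaf.1 V g := by
    intro i j
    have hη : genericPoint X ∈ V i ⊓ V j := ⟨hηV i, hηV j⟩
    apply germ_injective_of_isIntegral (X := X) (genericPoint X) hη
    refine (X.presheaf.germ_res_apply (Opens.infLELeft (V i) (V j)) (genericPoint X) hη
      (g i)).trans ?_
    refine Eq.trans ?_ (X.presheaf.germ_res_apply (Opens.infLERight (V i) (V j))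
      (genericPoint X) hη (g j)).symm
    rw [hg i, hg j]
  obtain ⟨s, hs, -⟩ := X.sheaf.existsUnique_gluing' V U (fun i => homOfLE (hVU i))
    (fun x hx => Opens.mem_iSup.2 ⟨⟨x, hx⟩, hxV ⟨x, hx⟩⟩) g hcompat
  obtain ⟨x⟩ := ‹Nonempty U›
  refine ⟨s, ?_⟩
  have h1 := hs x
  rw [← hg x (hηV x), ← h1]
  exact (X.presheaf.germ_res_apply (homOfLE (hVU x)) (genericPoint X) (hηV x) s).symm

end FQ
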