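import Mathlib
import Pool.Agent.Helper41.FQ.Def
import Pool.Agent.Helper61.FQ.Glue

/-!
From alternating multiderivations of the function field to sections of the anticanonical sheaf.
-/

open CategoryTheory AlgebraicGeometry TopologicalSpace Opposite

universe u

noncomputable section

namespace FQ

variable {X : Scheme.{u}}

theorem subsingleton_of_isEmpty {U : X.Opens} (h : ¬ Nonempty U) : Subsingleton Γ(X, U) := by
  constructor
  intro a b
  apply X.sheaf.eq_of_locally_eq' (fun i : PEmpty.{u + 1} => (⊥ : X.Opens)) U (fun i => i.elim)
  · intro x hx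
    exact (h ⟨⟨x, hx⟩⟩).elim
  · intro i
    exact i.elim

theorem exists_section61 {k : Type u} [Field k] [IsIntegral X] (s : X ⟶ Spec (.of k)) (n : ℕ)
    {L : Type*} [Field L] [Algebra k L] (ψ : X.functionField →+* L)
    (hψ : ∀ c : k, ψ (X.presheaf.germ ⊤ (genericPoint X) trivial (scal s ⊤ c)) =
      algebraMap k L c)
    (Φ : (Fin n → L) → L)
    (hadd : ∀ (v : Fin n → L) (j : Fin n) (a b : L),
      Φ (Function.update v j (a + b)) = Φ (Function.update v j a) + Φ (Function.update v j b))
    (hmul : ∀ (v : Fin n → L) (j : Fin n) (a b : L),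
      Φ (Function.update v j (a * b)) =
        a * Φ (Function.update v j b) + b * Φ (Function.update v j a))
    (hscal : ∀ (v : Fin n → L) (j : Fin n) (c : k), Φ (Function.update v j (algebraMap k L c)) = 0)
    (halt : ∀ (v : Fin n → L) (j j' : Fin n), j ≠ j' → v j = v j' → Φ v = 0)
    (hreg : ∀ (x : X) (b : Fin n → X.presheaf.stalk x), ∃ c : X.presheaf.stalk x,
      ψ (algebraMap (X.presheaf.stalk x) X.functionField c) =
        Φ (fun j => ψ (algebraMap (X.presheaf.stalk x) X.functionField (b j)))) :
    ∃ σ : AnticanonicalSection s n 1,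
      (∀ (U : X.Opens) [Nonempty U] (g : Fin 1 → Fin n → Γ(X, U)),
        ψ (X.germToFunctionField U (σ.toFun U g)) =
          Φ (fun j => ψ (X.germToFunctionField U (g 0 j)))) ∧
      (∀ x : X, x ∈ σ.locus ↔ ∃ (b : Fin n → X.presheaf.stalk x) (c : X.presheaf.stalk x),
        IsUnit c ∧ ψ (algebraMap (X.presheaf.stalk x) X.functionField c) =
          Φ (fun j => ψ (algebraMap (X.presheaf.stalk x) X.functionField (b j)))) := by
  classical
  -- the values
  have hex : ∀ (U : X.Opens) (g : Fin n → Γ(X, U)), ∃ y : Γ(X, U), ∀ hU : Nonempty U,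
      ψ (X.germToFunctionField U y) = Φ (fun j => ψ (X.germToFunctionField U (g j))) := by
    intro U g
    by_cases hU : Nonempty U
    swap
    · exact ⟨0, fun h => absurd h hU⟩
    have h1 : ∀ x ∈ U, ∃ c : X.presheaf.stalk x,
        ψ (algebraMap (X.presheaf.stalk x) X.functionField c) =
          Φ (fun j => ψ (X.germToFunctionField U (g j))) := by
      intro x hx
      obtain ⟨c, hc⟩ := hreg x (fun j => X.presheaf.germ U x hx (g j))
      refine ⟨c, ?_⟩
      rw [hc]
      simp only [Scheme.algebraMap_germ_eq_germToFunctionField]
    obtain ⟨x₀, hx₀⟩ := hU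
    obtain ⟨c₀, hc₀⟩ := h1 x₀ hx₀
    have hU : Nonempty U := ⟨⟨x₀, hx₀⟩⟩
    obtain ⟨y, hy⟩ := exists_section_of_stalks61 U
      (algebraMap (X.presheaf.stalk x₀) X.functionField c₀) (by
        intro x hx
        obtain ⟨c, hc⟩ := h1 x hx
        exact ⟨c, ψ.injective (by rw [hc, hc₀])⟩)
    exact ⟨y, fun _ => by rw [hy, hc₀]⟩
  choose val hval using hex
  have hinj : ∀ (U : X.Opens) (hU : Nonempty U) (y z : Γ(X, U)),
      ψ (X.germToFunctionField U y) = ψ (X.germToFunctionField U z) → y = z := by
    intro U hU y z h
    exact X.germToFunctionField_injective U (ψ.injective h)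
  let F : ∀ U : X.Opens, (Fin 1 → Fin n → Γ(X, U)) → Γ(X, U) := fun U g =>
    val U (g 0)
  have hF : ∀ (U : X.Opens) (hU : Nonempty U) (g : Fin 1 → Fin n → Γ(X, U)),
      ψ (X.germToFunctionField U (F U g)) =
        Φ (fun j => ψ (X.germToFunctionField U (g 0 j))) := by
    intro U hU g
    exact hval U (g 0) hU
  have hupd : ∀ (U : X.Opens) (hU : Nonempty U) (g : Fin 1 → Fin n → Γ(X, U)) (i : Fin 1)
      (j : Fin n) (a : Γ(X, U)),
      ψ (X.germToFunctionField U (F U (Function.update g i (Function.update (g i) j a)))) =
        Φ (Function.update (fun j => ψ (X.germToFunctionField U (g 0 j))) j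
          (ψ (X.germToFunctionField U a))) := by
    intro U hU g i j a
    rw [hF U hU]
    refine congrArg Φ ?_
    have hi : i = 0 := Subsingleton.elim _ _
    subst hi
    funext l
    by_cases hl : l = j
    · subst hl
      simp
    · simp [Function.update_of_ne hl]
  have hscal' : ∀ (U : X.Opens) (hU : Nonempty U) (c : k),
      ψ (X.germToFunctionField U (scal s U c)) = algebraMap k L c := by
    intro U hU c
    rw [← hψ c]
    refine congrArg ψ ?_
    have h1 : scal s U c = res (le_top : U ≤ ⊤) (scal s ⊤ c) := by
      unfold scal res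
      simp only [RingHom.comp_apply, ← CommRingCat.comp_apply]
      rw [Scheme.Hom.appLE_map]
    rw [h1]
    exact X.presheaf.germ_res_apply (homOfLE le_top) (genericPoint X) _ (scal s ⊤ c)
  let σ : AnticanonicalSection s n 1 :=
    { toFun := F
      map_add' := by
        intro U g i j a b
        by_cases hU : Nonempty U
        · apply hinj U hU
          rw [hupd U hU, map_add, map_add, map_add, map_add, hupd U hU, hupd U hU, hadd]
        · exact (subsingleton_of_isEmpty hU).elim _ _
      leibniz' := by
        intro U g i j a b
        by_cases hU : Nonempty U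
        · apply hinj U hU
          rw [hupd U hU, map_mul, map_mul, map_add, map_add, map_mul, map_mul, map_mul, map_mul,
            hupd U hU, hupd U hU, hmul]
        · exact (subsingleton_of_isEmpty hU).elim _ _
      map_scal' := by
        intro U g i j c
        by_cases hU : Nonempty U
        · apply hinj U hU
          rw [hupd U hU, hscal' U hU, hscal, map_zero, map_zero]
        · exact (subsingleton_of_isEmpty hU).elim _ _
      alternating' := by
        intro U g i j j' hjj h
        by_cases hU : Nonempty U
        · apply hinj U hU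
          rw [hF U hU, map_zero, map_zero]
          have hi : i = 0 := Subsingleton.elim _ _
          subst hi
          exact halt _ j j' hjj (by simp only [h])
        · exact (subsingleton_of_isEmpty hU).elim _ _
      map_res' := by
        intro U V h g
        by_cases hV : Nonempty V
        · have hU : Nonempty U := by
            obtain ⟨x⟩ := hV
            exact ⟨⟨x.1, h x.2⟩⟩
          apply hinj V hV
          have h1 := hF V hV (fun i j => res h (g i j))
          refine h1.trans ?_
          rw [germToFunctionField_res61 h]
          refine Eq.trans ?_ (hF U hU _).symm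
          simp only [germToFunctionField_res61 h]
        · exact (subsingleton_of_isEmpty hV).elim _ _ }
  refine ⟨σ, fun U hU g => hF U hU g, ?_⟩
  intro x
  constructor
  · intro hx
    unfold AnticanonicalSection.locus at hx
    simp only [Opens.mem_iSup] at hx
    obtain ⟨U, g, hx⟩ := hx
    have hxU : x ∈ U := X.basicOpen_le _ hx
    have hU : Nonempty U := ⟨⟨x, hxU⟩⟩
    refine ⟨fun j => X.presheaf.germ U x hxU (g 0 j), X.presheaf.germ U x hxU (σ.toFun U g),
      (X.mem_basicOpen _ x hxU).1 hx, ?_⟩
    rw [Scheme.algebraMap_germ_eq_germToFunctionField, hF U hU]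
    simp only [Scheme.algebraMap_germ_eq_germToFunctionField]
  · rintro ⟨b, c, hc, hbc⟩
    -- choose an open neighbourhood on which all `b j` are defined
    have hch : ∀ j, ∃ (W : X.Opens) (hx : x ∈ W) (y : Γ(X, W)), X.presheaf.germ W x hx y = b j :=
      fun j => X.presheaf.exists_germ_eq (b j)
    choose W hxW y hy using hch
    let U : X.Opens := Finset.univ.inf W
    have hxU : x ∈ U := by
      have : ∀ t : Finset (Fin n), x ∈ t.inf W := by
        intro t
        induction t using Finset.induction_on with
        | empty => exact trivial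
        | insert a t _ ih =>
          rw [Finset.inf_insert]
          exact ⟨hxW a, ih⟩
      exact this _
    have hUW : ∀ j, U ≤ W j := fun j => Finset.inf_le (Finset.mem_univ j)
    let g : Fin 1 → Fin n → Γ(X, U) := fun _ j => res (hUW j) (y j)
    have hU : Nonempty U := ⟨⟨x, hxU⟩⟩
    have hg : ∀ j, X.presheaf.germ U x hxU (g 0 j) = b j := by
      intro j
      rw [← hy j]
      exact X.presheaf.germ_res_apply (homOfLE (hUW j)) x hxU (y j)
    unfold AnticanonicalSection.locus
    simp only [Opens.mem_iSup]
    refine ⟨U, g, ?_⟩
    rw [X.mem_basicOpen _ x hxU]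
    have : X.presheaf.germ U x hxU (σ.toFun U g) = c := by
      have hinjx : Function.Injective (algebraMap (X.presheaf.stalk x) X.functionField) :=
        IsFractionRing.injective _ _
      apply hinjx
      apply ψ.injective
      rw [Scheme.algebraMap_germ_eq_germToFunctionField, hbc]
      refine (hF U hU g).trans ?_
      refine congrArg Φ ?_
      funext j
      rw [← hg j, Scheme.algebraMap_germ_eq_germToFunctionField]
    rw [this]
    exact hc

end FQ
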